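import Pool.Agent.Helper95.Lin.GoalsI
import Pool.Agent.Helper95.Lin.Basics
import Pool.Agent.Helper92.Orb.Torus

/-! # Packet KACT: the Kähler metric in coordinates -/

open Complex Metric Set Filter Topology MeasureTheory
open scoped ContDiff ComplexConjugate ComplexOrder Manifold

namespace Pool.Agent.Helper19.Lin

open Pool.Agent.Helper95.Lin
open Pool.Agent.Helper16.Abund Pool.Agent.Helper92.Orb
open Pool.Agent.Helper10.Abund (hasMFDerivAt_val mdifferentiable_val)

variable {n : ℕ}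

theorem herm_single (A : Matrix (Fin n) (Fin n) ℂ) (i j : Fin n) (s t : ℂ) :
    herm A (Pi.single i s) (Pi.single j t) = A i j * s * conj t := by
  unfold herm
  rw [Finset.sum_eq_single i, Finset.sum_eq_single j]
  · simp
  · intro l _ hl
    simp [Pi.single_eq_of_ne hl]
  · intro h
    exact absurd (Finset.mem_univ _) h
  · intro l _ hl
    simp [Pi.single_eq_of_ne hl]
  · intro h
    exact absurd (Finset.mem_univ _) h

/-- Real and imaginary parts of the derivative. -/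
theorem fderiv_re_im {f : Cn n → ℂ} {x : Cn n} (hf : DifferentiableAt ℝ f x) (w : Cn n) :
    (fderiv ℝ f x w).re = fderiv ℝ (fun z => (f z).re) x w ∧
      (fderiv ℝ f x w).im = fderiv ℝ (fun z => (f z).im) x w := by
  constructor
  · have h := (Complex.reCLM.hasFDerivAt.comp x hf.hasFDerivAt).fderiv
    have h2 : fderiv ℝ (fun z => (f z).re) x w =
      ((Complex.reCLM).comp (fderiv ℝ f x)) w := by
      rw [← h]
      rfl
    rw [h2]
    rfl
  · have h := (Complex.imCLM.hasFDerivAt.comp x hf.hasFDerivAt).fderiv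
    have h2 : fderiv ℝ (fun z => (f z).im) x w =
      ((Complex.imCLM).comp (fderiv ℝ f x)) w := by
      rw [← h]
      rfl
    rw [h2]
    rfl

/-- The matrix of a positive definite form whose imaginary part is a closed smooth form is smooth
and closed. -/
theorem closed_of_form {M : Set (Cn n)} (hM : IsOpen M) {H : Cn n → Matrix (Fin n) (Fin n) ℂ}
    (hH : ∀ x ∈ M, (H x).IsHermitian) {κ : Cn n → Cn n → Cn n → ℝ}
    (hκ : ∀ x ∈ M, ∀ u v, κ x u v = (herm (H x) u v).im) (hs : SmoothForm n κ M)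
    (hc : ClosedForm n κ M) :
    (∀ i j, ContDiffOn ℝ ∞ (fun x => H x i j) M) ∧
    ∀ x ∈ M, ∀ i j l, cd l (fun y => H y i j) x = cd i (fun y => H y l j) x := by
  have e1 : ∀ i j, ∀ x ∈ M, κ x (Pi.single i I) (Pi.single j 1) = (H x i j).re := by
    intro i j x hx
    rw [hκ x hx, herm_single]
    simp
  have e2 : ∀ i j, ∀ x ∈ M, κ x (Pi.single i 1) (Pi.single j 1) = (H x i j).im := by
    intro i j x hx
    rw [hκ x hx, herm_single]
    simp
  have e3 : ∀ i j, ∀ x ∈ M, κ x (Pi.single i 1) (Pi.single j I) = -(H x i j).re := by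
    intro i j x hx
    rw [hκ x hx, herm_single]
    simp
  have e4 : ∀ i j, ∀ x ∈ M, κ x (Pi.single i I) (Pi.single j I) = (H x i j).im := by
    intro i j x hx
    rw [hκ x hx, herm_single]
    have : H x i j * I * conj I = H x i j := by
      rw [Complex.conj_I, mul_assoc, mul_neg, Complex.I_mul_I, neg_neg, mul_one]
    rw [this]
  have hsm : ∀ i j, ContDiffOn ℝ ∞ (fun x => H x i j) M := by
    intro i j
    have h1 : ContDiffOn ℝ ∞ (fun x => ((κ x (Pi.single i I) (Pi.single j 1) : ℝ) : ℂ) +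
        ((κ x (Pi.single i 1) (Pi.single j 1) : ℝ) : ℂ) * I) M := by
      have g1 : ContDiffOn ℝ ∞ (fun x => ((κ x (Pi.single i I) (Pi.single j 1) : ℝ) : ℂ)) M :=
        Complex.ofRealCLM.contDiff.comp_contDiffOn (hs _ _)
      have g2 : ContDiffOn ℝ ∞ (fun x => ((κ x (Pi.single i 1) (Pi.single j 1) : ℝ) : ℂ)) M :=
        Complex.ofRealCLM.contDiff.comp_contDiffOn (hs _ _)
      exact g1.add (g2.mul contDiffOn_const)
    refine h1.congr ?_
    intro x hx
    rw [e1 i j x hx, e2 i j x hx, Complex.re_add_im]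
  refine ⟨hsm, ?_⟩
  intro x hx i j l
  have hnh : M ∈ 𝓝 x := hM.mem_nhds hx
  -- the derivatives of the real and imaginary parts
  have E1 : ∀ i j, fderiv ℝ (fun z => κ z (Pi.single i I) (Pi.single j 1)) x =
      fderiv ℝ (fun z => (H z i j).re) x := by
    intro i j
    apply Filter.EventuallyEq.fderiv_eq
    filter_upwards [hnh] with z hz using e1 i j z hz
  have E2 : ∀ i j, fderiv ℝ (fun z => κ z (Pi.single i 1) (Pi.single j 1)) x =
      fderiv ℝ (fun z => (H z i j).im) x := by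
    intro i j
    apply Filter.EventuallyEq.fderiv_eq
    filter_upwards [hnh] with z hz using e2 i j z hz
  have E3 : ∀ i j, fderiv ℝ (fun z => κ z (Pi.single i 1) (Pi.single j I)) x =
      - fderiv ℝ (fun z => (H z i j).re) x := by
    intro i j
    rw [← fderiv_fun_neg]
    apply Filter.EventuallyEq.fderiv_eq
    filter_upwards [hnh] with z hz using e3 i j z hz
  have E4 : ∀ i j, fderiv ℝ (fun z => κ z (Pi.single i I) (Pi.single j I)) x =
      fderiv ℝ (fun z => (H z i j).im) x := by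
    intro i j
    apply Filter.EventuallyEq.fderiv_eq
    filter_upwards [hnh] with z hz using e4 i j z hz
  have Hre : ∀ i j, fderiv ℝ (fun z => (H z j i).re) x = fderiv ℝ (fun z => (H z i j).re) x := by
    intro i j
    apply Filter.EventuallyEq.fderiv_eq
    filter_upwards [hnh] with z hz
    have := (hH z hz).apply i j
    rw [← this]
    simp
  have Him : ∀ i j, fderiv ℝ (fun z => (H z j i).im) x =
      - fderiv ℝ (fun z => (H z i j).im) x := by
    intro i j
    rw [← fderiv_fun_neg]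
    apply Filter.EventuallyEq.fderiv_eq
    filter_upwards [hnh] with z hz
    have := (hH z hz).apply i j
    rw [← this]
    simp
  have hd : ∀ i j, DifferentiableAt ℝ (fun z => H z i j) x := by
    intro i j
    exact ((hsm i j).contDiffAt hnh).differentiableAt (by simp)
  have hS := hc x hx
  have eI : ∀ (z : Fin n), (Pi.single z (1 : ℂ) : Cn n) = Pi.single z 1 := fun _ => rfl
  apply Complex.ext
  · unfold cd
    have s1 := hS (Pi.single l I) (Pi.single i I) (Pi.single j I)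
    have s2 := hS (Pi.single l 1) (Pi.single i I) (Pi.single j 1)
    have s3 := hS (Pi.single l I) (Pi.single i 1) (Pi.single j 1)
    have s4 := hS (Pi.single l 1) (Pi.single i 1) (Pi.single j I)
    rw [E4 i j, E4 j l, E4 l i] at s1
    rw [E1 i j, E2 j l, E3 l i] at s2
    rw [E2 i j, E3 j l, E1 l i] at s3
    rw [E3 i j, E1 j l, E2 l i] at s4
    rw [Hre l j] at s3 s4
    rw [Him l j] at s1 s2
    simp only [_root_.neg_apply] at s1 s2 s3 s4
    simp only [Complex.sub_re, Complex.mul_re, Complex.I_re, Complex.I_im, zero_mul, one_mul,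
      zero_sub, sub_neg_eq_add]
    rw [(fderiv_re_im (hd i j) _).1, (fderiv_re_im (hd i j) _).2,
      (fderiv_re_im (hd l j) _).1, (fderiv_re_im (hd l j) _).2]
    linarith
  · unfold cd
    have s1 := hS (Pi.single l 1) (Pi.single i 1) (Pi.single j 1)
    have s2 := hS (Pi.single l I) (Pi.single i 1) (Pi.single j I)
    have s3 := hS (Pi.single l 1) (Pi.single i I) (Pi.single j I)
    have s4 := hS (Pi.single l I) (Pi.single i I) (Pi.single j 1)
    rw [E2 i j, E2 j l, E2 l i] at s1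
    rw [E3 i j, E4 j l, E1 l i] at s2
    rw [E4 i j, E1 j l, E3 l i] at s3
    rw [E1 i j, E3 j l, E4 l i] at s4
    rw [Hre l j] at s3 s4
    rw [Him l j] at s1 s2
    simp only [_root_.neg_apply] at s1 s2 s3 s4
    simp only [Complex.sub_im, Complex.mul_im, Complex.I_re, Complex.I_im, zero_mul, one_mul,
      zero_add]
    rw [(fderiv_re_im (hd i j) _).1, (fderiv_re_im (hd i j) _).2,
      (fderiv_re_im (hd l j) _).1, (fderiv_re_im (hd l j) _).2]
    linarith

/-- The derivative of a map into an open subset of `ℂⁿ`. -/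
theorem mfderiv_of_val {X : Type*} [TopologicalSpace X] [ChartedSpace (Fin n → ℂ) X]
    (V : TopologicalSpace.Opens (Fin n → ℂ)) {f : X → V} {x : X}
    (hf : MDifferentiableAt 𝓘(ℂ, Fin n → ℂ) 𝓘(ℂ, Fin n → ℂ) f x) :
    (mfderiv 𝓘(ℂ, Fin n → ℂ) 𝓘(ℂ, Fin n → ℂ) (fun y => (f y : Fin n → ℂ)) x :
      (Fin n → ℂ) →L[ℂ] (Fin n → ℂ)) =
      (mfderiv 𝓘(ℂ, Fin n → ℂ) 𝓘(ℂ, Fin n → ℂ) f x : (Fin n → ℂ) →L[ℂ] (Fin n → ℂ)) := by
  have h1 := mfderiv_comp x ((mdifferentiable_val V) (f x)) hf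
  have h2 : mfderiv 𝓘(ℂ, Fin n → ℂ) 𝓘(ℂ, Fin n → ℂ) (Subtype.val : V → (Fin n → ℂ)) (f x) =
    ContinuousLinearMap.id ℂ (Fin n → ℂ) := (hasMFDerivAt_val V (f x)).mfderiv
  rw [h2] at h1
  exact h1

/-- **Packet KACT.** -/
theorem kact : S_TGA → S_KACT := by
  intro hT b D hD Γ _ _ g a β hL hact h hh hinv
  classical
  obtain ⟨hG, hconn, hprop, hcoc⟩ := hT hL
  obtain ⟨z₁, hz₁⟩ := hL.base.dom.conn.nonempty
  let y₁ : tube D hD 1 := ⟨Fin.append z₁ 0, by
    change base (Fin.append z₁ 0) ∈ D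
    rw [Pool.Agent.Helper10.Abund.base_append]
    exact hz₁⟩
  obtain ⟨ψ, hψP, hψ, -⟩ := exists_extend hD y₁
  let h' : tube D hD 1 → Matrix (Fin (b + 1)) (Fin (b + 1)) ℂ := h
  have hpos : ∀ x, (h' x).PosDef := hh.1
  have hform : ∀ (V : Set (Fin (b + 1) → ℂ)) (ψ : (Fin (b + 1) → ℂ) → tube D hD 1),
      HoloOn (b + 1) ψ V → SmoothForm (b + 1) (metricForm (b + 1) h' ψ) V ∧
        ClosedForm (b + 1) (metricForm (b + 1) h' ψ) V := hh.2
  have hM : IsOpen (tubeS D) := (tube D hD 1).isOpen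
  have hψ' : HoloOn (b + 1) ψ (tubeS D) := ⟨hM, hψ⟩
  obtain ⟨hs, hc⟩ := hform _ _ hψ'
  -- the derivative of the extension of the identity
  have hψd : ∀ v ∈ tubeS D, dmap (b + 1) ψ v = ContinuousLinearMap.id ℂ (Fin (b + 1) → ℂ) := by
    intro v hv
    have h1 : MDifferentiableAt 𝓘(ℂ, Fin (b + 1) → ℂ) 𝓘(ℂ, Fin (b + 1) → ℂ) ψ v :=
      hψ.mdifferentiableAt (hM.mem_nhds hv)
    have h2 := mfderiv_of_val (tube D hD 1) h1
    have h3 : (fun y => (ψ y : Fin (b + 1) → ℂ)) =ᶠ[𝓝 v] id := by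
      filter_upwards [hM.mem_nhds hv] with w hw
      have := hψP ⟨w, hw⟩
      rw [this]
      rfl
    rw [h3.mfderiv_eq] at h2
    unfold dmap
    rw [← h2]
    exact mfderiv_id
  let H : Cn (b + 1) → Matrix (Fin (b + 1)) (Fin (b + 1)) ℂ := fun v => h' (ψ v)
  have hHp : ∀ x, (H x).PosDef := fun x => hpos _
  have hκ : ∀ x ∈ tubeS D, ∀ u v, metricForm (b + 1) h' ψ x u v = (herm (H x) u v).im := by
    intro x hx u v
    unfold metricForm dvec
    rw [hψd x hx]
    rfl
  obtain ⟨hsm, hcl⟩ := closed_of_form hM (fun x _ => (hHp x).1) hκ hs hc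
  refine ⟨H, ⟨hG, hconn, hprop, hcoc, fun x _ => hHp x, hsm, hcl, ?_⟩⟩
  intro γ x hx u v
  -- the action at the point of the tube
  let y : tube D hD 1 := ⟨x, hx⟩
  let sm : TorTube hD 1 → TorTube hD 1 := fun z => γ • z
  let T : tube D hD 1 → tube D hD 1 := sm
  have hTv : ∀ z : tube D hD 1, (T z : Fin (b + 1) → ℂ) = Tt g a β γ z.1 := fun z => hact γ z
  have hinvT : ∀ (x : tube D hD 1) (u v : Fin (b + 1) → ℂ),
      herm (h' (T x)) (tvec (b + 1) T x u) (tvec (b + 1) T x v) = herm (h' x) u v := hinv γ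
  have hdT : DifferentiableAt ℂ (Tt g a β γ) x := (hG.holo γ).differentiableAt (hM.mem_nhds hx)
  have hcT : ContMDiffAt 𝓘(ℂ, Fin (b + 1) → ℂ) 𝓘(ℂ, Fin (b + 1) → ℂ) ∞ (Tt g a β γ) x :=
    ((holo_contDiffOn hM (hG.holo γ)).contDiffAt (hM.mem_nhds hx)).contMDiffAt
  have hval : ContMDiffAt 𝓘(ℂ, Fin (b + 1) → ℂ) 𝓘(ℂ, Fin (b + 1) → ℂ) ∞
      (Subtype.val : tube D hD 1 → (Fin (b + 1) → ℂ)) y := contMDiff_subtype_val.contMDiffAt
  have hcomp : (Subtype.val ∘ T) = Tt g a β γ ∘ (Subtype.val : tube D hD 1 → _) :=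
    funext fun z => hTv z
  have hTc : ContMDiffAt 𝓘(ℂ, Fin (b + 1) → ℂ) 𝓘(ℂ, Fin (b + 1) → ℂ) ∞ T y := by
    apply (ContMDiffAt.subtypeVal_comp_iff (tube D hD 1) T y).mp
    rw [hcomp]
    exact ContMDiffAt.comp y hcT hval
  have hTd : MDifferentiableAt 𝓘(ℂ, Fin (b + 1) → ℂ) 𝓘(ℂ, Fin (b + 1) → ℂ) T y :=
    hTc.mdifferentiableAt (by simp)
  have hmf : tmap (b + 1) T y = fderiv ℂ (Tt g a β γ) x := by
    have h1 := mfderiv_of_val (tube D hD 1) hTd
    have h2 : (fun z => (T z : Fin (b + 1) → ℂ)) =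
        Tt g a β γ ∘ (Subtype.val : tube D hD 1 → (Fin (b + 1) → ℂ)) := hcomp
    rw [h2] at h1
    have h3 := mfderiv_comp y (I' := 𝓘(ℂ, Fin (b + 1) → ℂ)) (g := Tt g a β γ)
      (f := (Subtype.val : tube D hD 1 → (Fin (b + 1) → ℂ)))
      (mdifferentiableAt_iff_differentiableAt.mpr hdT) ((mdifferentiable_val (tube D hD 1)) y)
    have h4 : mfderiv 𝓘(ℂ, Fin (b + 1) → ℂ) 𝓘(ℂ, Fin (b + 1) → ℂ)
      (Subtype.val : tube D hD 1 → (Fin (b + 1) → ℂ)) y =
      ContinuousLinearMap.id ℂ (Fin (b + 1) → ℂ) := (hasMFDerivAt_val (tube D hD 1) y).mfderiv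
    rw [h4, mfderiv_eq_fderiv] at h3
    unfold tmap
    rw [← h1]
    exact h3
  have hHx : H x = h' y := congrArg h' (hψP y)
  have hHT : H (Tt g a β γ x) = h' (T y) := by
    have h1 : Tt g a β γ x = (T y).1 := (hTv y).symm
    rw [h1]
    exact congrArg h' (hψP (T y))
  have key := hinvT y u v
  unfold tvec at key
  rw [hmf] at key
  rw [hHx, hHT]
  exact key

end Pool.Agent.Helper19.Lin
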