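import Pool.Agent.Helper95.Lin.GoalsA

/-! # Packet IDT: the identity theorem -/

open Complex Metric Set Filter Topology MeasureTheory
open scoped ContDiff ComplexConjugate ComplexOrder

namespace Pool.Agent.Helper19.Lin

open Pool.Agent.Helper95.Lin

/-- **Packet IDT.** -/
theorem idt : S_IDT := by
  intro n m U hU hUc f hf z₀ hz₀ h0 z hz
  have key : U ⊆ {z | ∀ᶠ w in 𝓝 z, f w = 0} := by
    apply hUc.subset_of_closure_inter_subset isOpen_setOfPred_eventually_nhds ⟨z₀, hz₀, h0⟩
    rintro z ⟨hzc, hzU⟩
    obtain ⟨r, hr, hball⟩ := Metric.isOpen_iff.1 hU z hzU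
    obtain ⟨x, hx, hxz⟩ := Metric.mem_closure_iff.1 hzc (r / 2) (half_pos hr)
    have hsub : ball x (r / 2) ⊆ U := by
      refine (ball_subset_ball' ?_).trans hball
      rw [dist_comm] at hxz
      linarith
    have hzero : ∀ y ∈ ball x (r / 2), f y = 0 := by
      intro y hy
      let L : ℂ → Cn n := fun ζ => x + ζ • (y - x)
      have hL : Differentiable ℂ L := by
        intro ζ
        exact (differentiableAt_id.smul_const (y - x)).const_add x
      have hL0 : L 0 = x := by simp [L]
      have hL1 : L 1 = y := by simp [L]
      have hW : IsOpen (L ⁻¹' ball x (r / 2)) := isOpen_ball.preimage hL.continuous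
      have hWc : Convex ℝ (L ⁻¹' ball x (r / 2)) := by
        intro a ha b hb s t hs ht hst
        have e : L (s • a + t • b) = s • L a + t • L b := by
          simp only [L]
          rw [add_smul, smul_assoc, smul_assoc, smul_add, smul_add]
          have hx' : x = s • x + t • x := by rw [← add_smul, hst, one_smul]
          nth_rewrite 1 [hx']
          abel
        change L (s • a + t • b) ∈ ball x (r / 2)
        rw [e]
        exact (convex_ball x (r / 2)) ha hb hs ht hst
      have hg : DifferentiableOn ℂ (f ∘ L) (L ⁻¹' ball x (r / 2)) :=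
        (hf.mono hsub).comp hL.differentiableOn fun _ h => h
      have ha := hg.analyticOnNhd hW
      have h1 : ∀ᶠ ζ in 𝓝 (0 : ℂ), (f ∘ L) ζ = 0 := by
        have ht : Tendsto L (𝓝 0) (𝓝 x) := by
          have := hL.continuous.tendsto 0
          rwa [hL0] at this
        exact ht.eventually hx
      have h2 := ha.eqOn_zero_of_preconnected_of_eventuallyEq_zero hWc.isPreconnected
        (show (0 : ℂ) ∈ L ⁻¹' ball x (r / 2) by
          change L 0 ∈ ball x (r / 2)
          rw [hL0]
          exact mem_ball_self (half_pos hr)) h1
        (show (1 : ℂ) ∈ L ⁻¹' ball x (r / 2) by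
          change L 1 ∈ ball x (r / 2)
          rw [hL1]
          exact hy)
      rw [Function.comp_apply, hL1] at h2
      exact h2
    filter_upwards [isOpen_ball.mem_nhds (show z ∈ ball x (r / 2) from hxz)] with y hy
      using hzero y hy
  exact (key hz).self_of_nhds

end Pool.Agent.Helper19.Lin
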