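import Pool.Agent.Helper95.Lin.GoalsD

/-! # Packet GLOB: generators have complete forward integral curves -/

open Complex Metric Set Filter Topology MeasureTheory
open scoped ContDiff ComplexConjugate ComplexOrder

namespace Pool.Agent.Helper19.Lin

open Pool.Agent.Helper95.Lin

/-- **Packet GLOB.** -/
theorem glob : S_MAXSOL → S_PLU → S_EULER → S_GLOB := by
  intro hMax hPLU hEul b D Γ _ g hH V hV z hz
  rcases hMax D hH.dom.isOpen V hV.1 z hz with h | ⟨T, hT, x, hx0, hx, hmax⟩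
  · exact h
  exfalso
  obtain ⟨K', hK'D, hK', hin, -⟩ :=
    hEul hH V hV {z} (singleton_subset_iff.2 hz) isCompact_singleton T hT
  have hxK : ∀ t ∈ Ico (0 : ℝ) T, x t ∈ K' := by
    intro t ht
    refine hin z rfl t ht.2.le x ⟨hx0, fun s hs => ?_⟩ t ⟨ht.1, le_rfl⟩
    have := hx s ⟨hs.1, hs.2.trans_lt ht.2⟩
    exact ⟨this.1, this.2.mono Icc_subset_Ici_self⟩
  obtain ⟨δ₀, hδ, hsol⟩ :=
    hPLU D hH.dom.isOpen (fun _ : Fin 1 => V) (fun _ => hV.1) K' hK'D hK'
  have h1 : ∀ t ∈ Ico (0 : ℝ) T, t + δ₀ < T := by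
    intro t ht
    obtain ⟨y, hy⟩ := hsol (fun _ => 1) (by simp) (x t) (hxK t ht)
    refine hmax t ht δ₀ hδ.le y ?_
    simpa using hy
  have h2 := h1 (max 0 (T - δ₀)) ⟨le_max_left _ _, max_lt hT (by linarith)⟩
  have h3 := le_max_right 0 (T - δ₀)
  linarith

end Pool.Agent.Helper19.Lin
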