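import Pool.Agent.Helper95.Lin.GoalsH

/-! # Packet POS: positivity -/

open Complex Metric Set Filter Topology MeasureTheory
open scoped ContDiff ComplexConjugate ComplexOrder

namespace Pool.Agent.Helper19.Lin

open Pool.Agent.Helper95.Lin

variable {n : ℕ}

theorem contDiffOn_dd {M : Set (Cn n)} (hM : IsOpen M) {φ : Cn n → ℝ}
    (hφ : ContDiffOn ℝ ∞ φ M) (a : Fin n × Bool) : ContDiffOn ℝ ∞ (dd φ a) M := by
  have h1 : ContDiffOn ℝ ∞ (fderiv ℝ φ) M := hφ.fderiv_of_isOpen hM (by simp)
  exact h1.clm_apply contDiffOn_const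

theorem contDiffOn_Lop {M : Set (Cn n)} (hM : IsOpen M)
    {P : Fin n × Bool → Fin n × Bool → Cn n → ℝ} (hP : ∀ a b, ContDiffOn ℝ ∞ (P a b) M)
    {φ : Cn n → ℝ} (hφ : ContDiffOn ℝ ∞ φ M) : ContDiffOn ℝ ∞ (Lop P φ) M := by
  unfold Lop
  refine ContDiffOn.sum fun a _ => ContDiffOn.sum fun b _ => ?_
  exact (hP a b).mul (contDiffOn_dd hM (contDiffOn_dd hM hφ b) a)

theorem dd_eq_zero {φ : Cn n → ℝ} {x : Cn n} (hx : φ =ᶠ[𝓝 x] 0) (a : Fin n × Bool) :
    dd φ a x = 0 := by
  unfold dd
  rw [hx.fderiv_eq]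
  simp

theorem dd_eventually_zero {φ : Cn n → ℝ} {x : Cn n} (hx : φ =ᶠ[𝓝 x] 0) (a : Fin n × Bool) :
    dd φ a =ᶠ[𝓝 x] 0 := by
  filter_upwards [hx.eventually_nhds] with y hy using dd_eq_zero hy a

theorem Lop_eq_zero {P : Fin n × Bool → Fin n × Bool → Cn n → ℝ} {φ : Cn n → ℝ} {x : Cn n}
    (hx : x ∉ tsupport φ) : Lop P φ x = 0 := by
  have h0 : φ =ᶠ[𝓝 x] 0 := notMem_tsupport_iff_eventuallyEq.1 hx
  unfold Lop
  refine Finset.sum_eq_zero fun a _ => Finset.sum_eq_zero fun b _ => ?_
  rw [dd_eq_zero (dd_eventually_zero h0 b) a, mul_zero]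

theorem support_mul_Lop_subset {P : Fin n × Bool → Fin n × Bool → Cn n → ℝ} {φ u : Cn n → ℝ} :
    Function.support (fun x => u x * Lop P φ x) ⊆ tsupport φ := by
  intro x hx
  by_contra h
  exact hx (by simp [Lop_eq_zero h])

/-- A function continuous on the open set `M` times the operator applied to a test function is
integrable. -/
theorem integrable_mul_Lop {M : Set (Cn n)} (hM : IsOpen M)
    {P : Fin n × Bool → Fin n × Bool → Cn n → ℝ} (hP : ∀ a b, ContDiffOn ℝ ∞ (P a b) M)
    {u φ : Cn n → ℝ} (hu : ContinuousOn u M) (hφ : TestF M φ) :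
    Integrable (fun x => u x * Lop P φ x) := by
  have hK : IsCompact (tsupport φ) := hφ.2.1
  have hc : ContinuousOn (fun x => u x * Lop P φ x) (tsupport φ) :=
    (hu.mul (contDiffOn_Lop hM hP hφ.1.contDiffOn).continuousOn).mono hφ.2.2
  exact (integrableOn_iff_integrable_of_support_subset support_mul_Lop_subset).1
    (hc.integrableOn_compact hK)

/-- **Packet POS.** -/
theorem pos : S_MOLL → S_IBP → S_POS := by
  intro hMoll hIBP n M Γ _ T P hE u hu hpsh φ hφ hφ0
  have hM : IsOpen M := hE.act.isOpen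
  have hK : IsCompact (tsupport φ) := hφ.2.1
  set A : ℝ := ∫ x in M, |Lop P φ x| with hA
  have hA0 : 0 ≤ A := integral_nonneg fun x => abs_nonneg _
  have hLi : Integrable (fun x => Lop P φ x) := by
    have := integrable_mul_Lop hM hE.smooth (u := fun _ => 1) continuousOn_const hφ
    simpa using this
  have key : ∀ ε > 0, - (ε * A) ≤ ∫ x in M, u x * Lop P φ x := by
    intro ε hε
    obtain ⟨v, hv, hvu, hlev⟩ := hMoll M hM u hu hpsh (tsupport φ) hφ.2.2 hK ε hε
    obtain ⟨C, hC, hell⟩ := hE.ell (tsupport φ) hφ.2.2 hK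
    have h1 := hIBP M P hM hE.smooth hE.symm hE.div φ v hφ hv.contDiffOn
    have h2 : 0 ≤ ∫ x in M, φ x * Lop P v x := by
      refine integral_nonneg fun x => ?_
      by_cases hx : x ∈ tsupport φ
      · exact mul_nonneg (hφ0 x) (hell v hv.contDiffOn x hx (hlev x hx)).1
      · simp [image_eq_zero_of_notMem_tsupport hx]
    have hui : Integrable (fun x => u x * Lop P φ x) := integrable_mul_Lop hM hE.smooth hu hφ
    have hvi : Integrable (fun x => v x * Lop P φ x) :=
      integrable_mul_Lop hM hE.smooth hv.continuous.continuousOn hφ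
    have h3 : (∫ x in M, u x * Lop P φ x) - (∫ x in M, v x * Lop P φ x) ≥ - (ε * A) := by
      rw [← integral_sub hui.integrableOn hvi.integrableOn, hA, ← integral_const_mul,
        ← integral_neg]
      refine integral_mono (hLi.abs.integrableOn.const_mul ε).neg
        (hui.sub hvi).integrableOn fun x => ?_
      by_cases hx : x ∈ tsupport φ
      · have h4 := hvu x hx
        have h5 : |(u x - v x) * Lop P φ x| ≤ ε * |Lop P φ x| := by
          rw [abs_mul, abs_sub_comm]
          exact mul_le_mul_of_nonneg_right h4 (abs_nonneg _)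
        have h6 := neg_le_of_abs_le h5
        change -(ε * |Lop P φ x|) ≤ u x * Lop P φ x - v x * Lop P φ x
        linarith
      · simp [Lop_eq_zero hx]
    have h7 : 0 ≤ ∫ x in M, v x * Lop P φ x := by rw [h1]; exact h2
    linarith
  refine le_of_forall_pos_le_add fun δ hδ => ?_
  have h := key (δ / (A + 1)) (by positivity)
  have h2 : δ / (A + 1) * A ≤ δ := by
    rw [div_mul_eq_mul_div, div_le_iff₀ (by positivity)]
    nlinarith
  linarith

end Pool.Agent.Helper19.Lin
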